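import Pool.Agent.Lib_helper59.LDS.Pow
import Pool.Agent.Lib_helper4.LDK.Top

/-!
# LDS, block STA: the theorem at the level of states

`Stab α Q`: the class `Q` is stable under `(S, R) ↦ (X S X, X R X)`, where
`X = ((S + R)/2) ^ ((1 - α)/(2 α))` (power on the support).
-/

set_option autoImplicit false
set_option linter.unusedSectionVars false

open Matrix
open scoped ComplexOrder Kronecker MatrixOrder
open Pool.Agent.RC Pool.Agent.LDK
open Pool.Agent.Lib_helper98.Renyi Pool.Agent.Lib_helper59.RCT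

namespace Pool.Agent.LDS

variable {ι κ b : Type} [Fintype ι] [DecidableEq ι] [Fintype κ] [DecidableEq κ]
  [Fintype b] [DecidableEq b]

/-! ### powers of flagged matrices -/

theorem aeval_flag {P A : Matrix b b ℂ} (h1 : P * P = P) (hc : P * A = A * P)
    (p : Polynomial ℝ) :
    Polynomial.aeval (P * A) p = P * Polynomial.aeval A p + (p.eval 0) • (1 - P) := by
  have hk : ∀ k : ℕ, (P * A) ^ (k + 1) = P * A ^ (k + 1) := by
    intro k
    induction k with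
    | zero => rw [zero_add, pow_one, pow_one]
    | succ k ih =>
      rw [pow_succ, ih, pow_succ A (k + 1)]
      calc P * A ^ (k + 1) * (P * A) = P * (A ^ (k + 1) * P) * A := by
            simp only [Matrix.mul_assoc]
        _ = P * (P * A ^ (k + 1)) * A := by
            rw [((show Commute P A from hc).pow_right (k + 1)).eq]
        _ = P * (A ^ (k + 1) * A) := by
            rw [← Matrix.mul_assoc P P, h1, Matrix.mul_assoc]
  induction p using Polynomial.induction_on' with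
  | add p q hp hq =>
    rw [map_add, map_add, hp, hq, Matrix.mul_add, Polynomial.eval_add, add_smul]
    abel
  | monomial k c =>
    rw [Polynomial.aeval_monomial, Polynomial.aeval_monomial, Algebra.algebraMap_eq_smul_one,
      smul_mul_assoc, smul_mul_assoc, one_mul, one_mul,
      Matrix.mul_smul, Polynomial.eval_monomial]
    cases k with
    | zero =>
      rw [pow_zero, pow_zero, pow_zero, Matrix.mul_one, mul_one, ← smul_add, add_sub_cancel]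
    | succ k => rw [hk, zero_pow (Nat.succ_ne_zero k), mul_zero, zero_smul, add_zero]

theorem mpow_flag {P A : Matrix b b ℂ} (h0 : P.IsHermitian) (h1 : P * P = P)
    (hA : A.PosSemidef) (hc : P * A = A * P) (s : ℝ) :
    mpow (P * A) s = P * mpow A s := by
  have hPA : (P * A).IsHermitian := (psd_flag h0 h1 hA hc).1
  obtain ⟨p, hp⟩ := exists_poly (supPow s) ((spectrum ℝ A ∪ spectrum ℝ (P * A)) ∪ {0})
    (((Matrix.finite_real_spectrum).union (Matrix.finite_real_spectrum)).union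
      (Set.finite_singleton 0))
  have e1 : mpow A s = Polynomial.aeval A p := by
    rw [← cfc_polynomial p A hA.1.isSelfAdjoint, mpow]
    exact cfc_congr fun x hx => (hp x (Or.inl (Or.inl hx))).symm
  have e2 : mpow (P * A) s = Polynomial.aeval (P * A) p := by
    rw [← cfc_polynomial p (P * A) hPA.isSelfAdjoint, mpow]
    exact cfc_congr fun x hx => (hp x (Or.inl (Or.inr hx))).symm
  have e3 : p.eval 0 = 0 := by
    rw [hp 0 (Or.inr rfl), supPow, if_pos rfl]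
  rw [e1, e2, aeval_flag h1 hc, e3, zero_smul, add_zero]

/-! ### stable classes -/

/-- `Q` is stable under the passage to powers -/
def Stab (α : ℝ) (Q : MP2) : Prop :=
  ∀ (κ : Type) [Fintype κ] [DecidableEq κ] (S R : Matrix κ κ ℂ), S.PosSemidef → R.PosSemidef →
    Q κ S R → Q κ
      (mpow ((1 / 2 : ℂ) • (S + R)) ((1 - α) / (2 * α)) * S *
        mpow ((1 / 2 : ℂ) • (S + R)) ((1 - α) / (2 * α)))
      (mpow ((1 / 2 : ℂ) • (S + R)) ((1 - α) / (2 * α)) * R *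
        mpow ((1 / 2 : ℂ) • (S + R)) ((1 - α) / (2 * α)))

theorem flagQ_stab {α : ℝ} (hα : 0 < α) {Q : MP2} (hst : Stab α Q)
    {σ : Fin 2 → Matrix b b ℂ} (h : ∀ x, IsDensity (σ x)) (hf : FlagQ Q (σ 0) (σ 1)) :
    FlagQ Q (Aop α σ + Dop α σ) (Aop α σ - Dop α σ) := by
  obtain ⟨m, P, h1, h2, h3, h4, h5, h6⟩ := hf
  have hρ := rhoOf_posSemidef h
  have h45 : ∀ i x, P i * σ x = σ x * P i := by
    intro i x
    fin_cases x
    · exact h4 i
    · exact h5 i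
  have e1 : ∀ i, P i * mpow (rhoOf σ) ((1 - α) / (2 * α)) =
      mpow (rhoOf σ) ((1 - α) / (2 * α)) * P i := fun i => comm_mpow hρ.1 (comm_rhoOf (h45 i)) _
  have e2 : ∀ i, mpow ((1 / 2 : ℂ) • (P i * σ 0 + P i * σ 1)) ((1 - α) / (2 * α)) =
      P i * mpow (rhoOf σ) ((1 - α) / (2 * α)) := by
    intro i
    rw [← mpow_flag (h1 i) (h2 i) hρ (comm_rhoOf (h45 i)), rhoOf, Matrix.mul_smul,
      Matrix.mul_add]
  rw [A_add_D h hα, A_sub_D h hα]
  set X := mpow (rhoOf σ) ((1 - α) / (2 * α)) with hXd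
  have ea : ∀ i x, P i * (X * σ x * X) = X * (P i * σ x) * X := by
    intro i x
    rw [← Matrix.mul_assoc, ← Matrix.mul_assoc, e1]
    simp only [Matrix.mul_assoc]
  have eb : ∀ i x, (X * σ x * X) * P i = X * (P i * σ x) * X := by
    intro i x
    rw [Matrix.mul_assoc, ← e1, h45]
    simp only [Matrix.mul_assoc]
  have ec : ∀ i x, P i * (X * σ x * X) = (P i * X) * (P i * σ x) * (P i * X) := by
    intro i x
    rw [ea]
    calc X * (P i * σ x) * X = X * ((P i * P i * P i) * σ x) * X := by rw [h2, h2]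
      _ = (X * P i) * P i * (P i * σ x) * X := by simp only [Matrix.mul_assoc]
      _ = (X * P i) * P i * (σ x * P i) * X := by rw [h45]
      _ = (X * P i) * (P i * σ x) * (P i * X) := by simp only [Matrix.mul_assoc]
      _ = _ := by rw [← e1]
  refine ⟨m, P, h1, h2, h3, fun i => by rw [ea, eb], fun i => by rw [ea, eb], fun i => ?_⟩
  rw [ec, ec, ← e2]
  exact hst b _ _ (psd_flag (h1 i) (h2 i) (h 0).1 (h4 i)) (psd_flag (h1 i) (h2 i) (h 1).1 (h5 i))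
    (h6 i)

/-- one block, no flags -/
theorem stab_state {α : ℝ} (hα : 0 < α) {Q : MP2} (hst : Stab α Q)
    {σ : Fin 2 → Matrix b b ℂ} (h : ∀ x, IsDensity (σ x)) (hf : Q b (σ 0) (σ 1)) :
    Q b (Aop α σ + Dop α σ) (Aop α σ - Dop α σ) := by
  rw [A_add_D h hα, A_sub_D h hα]
  exact hst b _ _ (h 0).1 (h 1).1 hf

/-- the union of two stable classes is stable -/
theorem Stab.or {α : ℝ} {Q Q' : MP2} (h : Stab α Q) (h' : Stab α Q') :
    Stab α (fun κ _ _ S R => Q κ S R ∨ Q' κ S R) :=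
  fun κ _ _ S R hS hR hq => hq.imp (h κ S R hS hR) (h' κ S R hS hR)

/-- classes stable under all congruences -/
theorem Stab.of_conj (α : ℝ) {Q : MP2}
    (hconj : ∀ {κ : Type} [Fintype κ] [DecidableEq κ] (S R X : Matrix κ κ ℂ), Xᴴ = X →
      Q κ S R → Q κ (X * S * X) (X * R * X)) : Stab α Q := by
  intro κ _ _ S R hS hR hq
  exact hconj _ _ _ (mpow_isHermitian (posSemidef_half_smul (hS.add hR)) _) hq

/-! ### the state-level theorem for a stable class -/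

/-- upper bounds for one `α`: hypothesis on the transformed pair -/
theorem open_le_at {σ₁ : Fin 2 → Matrix ι ι ℂ} {σ₂ : Fin 2 → Matrix κ κ ℂ}
    (h₁ : ∀ x, IsDensity (σ₁ x)) (h₂ : ∀ x, IsDensity (σ₂ x)) (α : ℝ)
    (hf : Q1Open (Aop α σ₁) (Dop α σ₁) ∨ Q1Open (Aop α σ₂) (Dop α σ₂))
    (hα : (0 < α ∧ α ≤ 2 ∧ α ≠ 1) ∨ (3 ≤ α ∧ α ≤ 4)) : Hsum α σ₁ σ₂ ≤ Fval α σ₁ σ₂ := by
  have h0 : 0 < α := by
    rcases hα with h | h
    · exact h.1
    · linarith [h.1]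
  have h1 : α ≠ 1 := by
    rcases hα with h | h
    · exact h.2.2
    · linarith [h.1]
  have p₁ := psdPair_state h₁ h0
  have p₂ := psdPair_state h₂ h0
  apply Hsum_le_Fval h₁ h₂ h0 h1
  rw [p₁.Gfun_eq h0, p₂.Gfun_eq h0, (p₁.kron p₂).Gfun_eq h0]
  rcases hf with hf | hf
  · have := hf.le hα κ _ _ p₂
    rwa [G_swap, mul_comm (Pool.Agent.RC.G α _ _)] at this
  · exact hf.le hα ι _ _ p₁

theorem open_ge_at {σ₁ : Fin 2 → Matrix ι ι ℂ} {σ₂ : Fin 2 → Matrix κ κ ℂ}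
    (h₁ : ∀ x, IsDensity (σ₁ x)) (h₂ : ∀ x, IsDensity (σ₂ x)) (α : ℝ)
    (hf : Q1Open (Aop α σ₁) (Dop α σ₁) ∨ Q1Open (Aop α σ₂) (Dop α σ₂))
    (h2 : 2 ≤ α) (h3 : α ≤ 3) : Fval α σ₁ σ₂ ≤ Hsum α σ₁ σ₂ := by
  have h0 : 0 < α := by linarith
  have p₁ := psdPair_state h₁ h0
  have p₂ := psdPair_state h₂ h0
  apply Fval_le_Hsum_of_one_lt h₁ h₂ (by linarith)
  rw [p₁.Gfun_eq h0, p₂.Gfun_eq h0, (p₁.kron p₂).Gfun_eq h0]
  rcases hf with hf | hf
  · have := hf.ge h2 h3 κ _ _ p₂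
    rwa [G_swap, mul_comm (Pool.Agent.RC.G α _ _)] at this
  · exact hf.ge h2 h3 ι _ _ p₁

theorem open_one {σ₁ : Fin 2 → Matrix ι ι ℂ} {σ₂ : Fin 2 → Matrix κ κ ℂ}
    (h₁ : ∀ x, IsDensity (σ₁ x)) (h₂ : ∀ x, IsDensity (σ₂ x))
    (hf : Q1Open (rhoOf σ₁) (delOf σ₁) ∨ Q1Open (rhoOf σ₂) (delOf σ₂)) :
    Hsum 1 σ₁ σ₂ ≤ Fval 1 σ₁ σ₂ := by
  have p₁ := psdPair_state_one h₁
  have p₂ := psdPair_state_one h₂
  apply Hsum_le_Fval_one h₁ h₂
  rw [p₁.GfunOne_eq, p₂.GfunOne_eq, (p₁.kron p₂).GfunOne_eq]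
  rcases hf with hf | hf
  · have := hf.one p₁ p₂
    rwa [G1_swap, mul_comm (G1 _ _)] at this
  · exact hf.one p₂ p₁

theorem stab_le {Q : MP2}
    (hc : ∀ {κ : Type} [Fintype κ] [DecidableEq κ] (A D : Matrix κ κ ℂ), IsPsdPair A D →
      Q κ (A + D) (A - D) → Q1Open A D)
    {σ₁ : Fin 2 → Matrix ι ι ℂ} {σ₂ : Fin 2 → Matrix κ κ ℂ}
    (h₁ : ∀ x, IsDensity (σ₁ x)) (h₂ : ∀ x, IsDensity (σ₂ x))
    (hf : FlagQ Q (σ₁ 0) (σ₁ 1) ∨ FlagQ Q (σ₂ 0) (σ₂ 1)) (α : ℝ) (hst : Stab α Q)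
    (hα : (0 < α ∧ α ≤ 2) ∨ (3 ≤ α ∧ α ≤ 4)) : Hsum α σ₁ σ₂ ≤ Fval α σ₁ σ₂ := by
  have h0 : 0 < α := by
    rcases hα with h | h
    · exact h.1
    · linarith [h.1]
  by_cases h1 : α = 1
  · subst h1
    refine open_one h₁ h₂ (hf.imp (fun hf => ?_) (fun hf => ?_))
    · exact Q1Open.flag (fun A D => hc A D) (psdPair_state_one h₁) (flagQ_state_one hf)
    · exact Q1Open.flag (fun A D => hc A D) (psdPair_state_one h₂) (flagQ_state_one hf)
  · have hα' : (0 < α ∧ α ≤ 2 ∧ α ≠ 1) ∨ (3 ≤ α ∧ α ≤ 4) := by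
      rcases hα with h | h
      · exact Or.inl ⟨h.1, h.2, h1⟩
      · exact Or.inr h
    refine open_le_at h₁ h₂ α (hf.imp (fun hf => ?_) (fun hf => ?_)) hα'
    · exact Q1Open.flag (fun A D => hc A D) (psdPair_state h₁ h0) (flagQ_stab h0 hst h₁ hf)
    · exact Q1Open.flag (fun A D => hc A D) (psdPair_state h₂ h0) (flagQ_stab h0 hst h₂ hf)

theorem stab_ge {Q : MP2}
    (hc : ∀ {κ : Type} [Fintype κ] [DecidableEq κ] (A D : Matrix κ κ ℂ), IsPsdPair A D →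
      Q κ (A + D) (A - D) → Q1Open A D)
    {σ₁ : Fin 2 → Matrix ι ι ℂ} {σ₂ : Fin 2 → Matrix κ κ ℂ}
    (h₁ : ∀ x, IsDensity (σ₁ x)) (h₂ : ∀ x, IsDensity (σ₂ x))
    (hf : FlagQ Q (σ₁ 0) (σ₁ 1) ∨ FlagQ Q (σ₂ 0) (σ₂ 1)) (α : ℝ) (hst : Stab α Q)
    (h2 : 2 ≤ α) (h3 : α ≤ 3) : Fval α σ₁ σ₂ ≤ Hsum α σ₁ σ₂ := by
  have h0 : 0 < α := by linarith
  refine open_ge_at h₁ h₂ α (hf.imp (fun hf => ?_) (fun hf => ?_)) h2 h3
  · exact Q1Open.flag (fun A D => hc A D) (psdPair_state h₁ h0) (flagQ_stab h0 hst h₁ hf)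
  · exact Q1Open.flag (fun A D => hc A D) (psdPair_state h₂ h0) (flagQ_stab h0 hst h₂ hf)

/-! ### the class `ObtPair` -/

/-- `ObtPair` as a property of pairs of every size -/
def ObtQ : MP2 := fun _ _ _ S R => ObtPair S R

theorem obt_stab (hfr : FracSt) {α : ℝ} (hα : 1 ≤ α) : Stab α ObtQ := by
  intro κ _ _ S R _ _ hq
  have h0 : 0 < α := by linarith
  have h1 := ObtPair.pow_of hfr hq (s := 1 / α) (by positivity) (by
    rw [div_le_one h0]
    exact hα)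
  have h2 : (1 / α - 1) / 2 = (1 - α) / (2 * α) := by
    field_simp
  rw [h2] at h1
  exact h1

/-- the class is stable under the passage to `α ≥ 1` -/
theorem ObtPair.state_of (hfr : FracSt) {σ : Fin 2 → Matrix κ κ ℂ} (hσ : ∀ x, IsDensity (σ x))
    (h : ObtPair (σ 0) (σ 1)) {α : ℝ} (hα : 1 ≤ α) :
    ObtPair (Aop α σ + Dop α σ) (Aop α σ - Dop α σ) :=
  stab_state (by linarith) (obt_stab hfr hα) hσ h

/-- the statement of block ASM -/
def AsmSt : Prop := ∀ {κ : Type} [Fintype κ] [DecidableEq κ] {A D : Matrix κ κ ℂ},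
  ObtPair (A + D) (A - D) → ExpDom A D

theorem obt_open (hasm : AsmSt) {κ : Type} [Fintype κ] [DecidableEq κ] (A D : Matrix κ κ ℂ)
    (h : IsPsdPair A D) (hq : ObtQ κ (A + D) (A - D)) : Q1Open A D :=
  Q1Open.of_expDom h (hasm hq)

/-- the union of the two classes of blocks -/
def BlkQ : MP2 := fun κ _ _ S R => GoodSR κ S R ∨ ObtQ κ S R

theorem blk_stab (hfr : FracSt) {α : ℝ} (hα : 1 ≤ α) : Stab α BlkQ :=
  Stab.or (Stab.of_conj α fun _ _ _ hX h => goodSR_conj hX h) (obt_stab hfr hα)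

theorem blk_open (hp : PertSt) (hasm : AsmSt) {κ : Type} [Fintype κ] [DecidableEq κ]
    (A D : Matrix κ κ ℂ) (h : IsPsdPair A D) (hq : BlkQ κ (A + D) (A - D)) : Q1Open A D :=
  hq.elim (fun hq => goodSR_open genOpen hp h hq) (fun hq => obt_open hasm A D h hq)

theorem blk_le_of (hfr : FracSt) (hasm : AsmSt) (hp : PertSt)
    {σ₁ : Fin 2 → Matrix ι ι ℂ} {σ₂ : Fin 2 → Matrix κ κ ℂ}
    (h₁ : ∀ x, IsDensity (σ₁ x)) (h₂ : ∀ x, IsDensity (σ₂ x))
    (hf : FlagQ BlkQ (σ₁ 0) (σ₁ 1) ∨ FlagQ BlkQ (σ₂ 0) (σ₂ 1)) (α : ℝ)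
    (hα : (1 ≤ α ∧ α ≤ 2) ∨ (3 ≤ α ∧ α ≤ 4)) : Hsum α σ₁ σ₂ ≤ Fval α σ₁ σ₂ := by
  have h1 : 1 ≤ α := by
    rcases hα with h | h
    · exact h.1
    · linarith [h.1]
  exact stab_le (Q := BlkQ) (fun A D h hq => blk_open hp hasm A D h hq) h₁ h₂ hf α
    (blk_stab hfr h1) (hα.imp (fun h => ⟨by linarith [h.1], h.2⟩) id)

theorem blk_ge_of (hfr : FracSt) (hasm : AsmSt) (hp : PertSt)
    {σ₁ : Fin 2 → Matrix ι ι ℂ} {σ₂ : Fin 2 → Matrix κ κ ℂ}
    (h₁ : ∀ x, IsDensity (σ₁ x)) (h₂ : ∀ x, IsDensity (σ₂ x))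
    (hf : FlagQ BlkQ (σ₁ 0) (σ₁ 1) ∨ FlagQ BlkQ (σ₂ 0) (σ₂ 1)) (α : ℝ)
    (h2 : 2 ≤ α) (h3 : α ≤ 3) : Fval α σ₁ σ₂ ≤ Hsum α σ₁ σ₂ :=
  stab_ge (Q := BlkQ) (fun A D h hq => blk_open hp hasm A D h hq) h₁ h₂ hf α
    (blk_stab hfr (by linarith)) h2 h3

/-- the version for one fixed `α ∈ (0, 4]`: hypothesis on the transformed pair -/
theorem blk_le_at (hasm : AsmSt) (hp : PertSt) {σ₁ : Fin 2 → Matrix ι ι ℂ}
    {σ₂ : Fin 2 → Matrix κ κ ℂ}
    (h₁ : ∀ x, IsDensity (σ₁ x)) (h₂ : ∀ x, IsDensity (σ₂ x)) (α : ℝ)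
    (hf : FlagQ BlkQ (Aop α σ₁ + Dop α σ₁) (Aop α σ₁ - Dop α σ₁) ∨
      FlagQ BlkQ (Aop α σ₂ + Dop α σ₂) (Aop α σ₂ - Dop α σ₂))
    (hα : (0 < α ∧ α ≤ 2 ∧ α ≠ 1) ∨ (3 ≤ α ∧ α ≤ 4)) : Hsum α σ₁ σ₂ ≤ Fval α σ₁ σ₂ := by
  have h0 : 0 < α := by
    rcases hα with h | h
    · exact h.1
    · linarith [h.1]
  refine open_le_at h₁ h₂ α (hf.imp (fun hf => ?_) (fun hf => ?_)) hα
  · exact Q1Open.flag (fun A D h hq => blk_open hp hasm A D h hq) (psdPair_state h₁ h0) hf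
  · exact Q1Open.flag (fun A D h hq => blk_open hp hasm A D h hq) (psdPair_state h₂ h0) hf

end Pool.Agent.LDS
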