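import Pool.Agent.Lib_helper59.LDS.Sta
import Pool.Agent.Lib_helper41.LDS.Asm
import Pool.Agent.Lib_helper84.LDS.Frac

/-!
# LDS: the union of the pencil blocks and the obtuse blocks, unconditional
-/

set_option autoImplicit false
set_option linter.unusedSectionVars false

open Matrix
open scoped ComplexOrder Kronecker MatrixOrder
open Pool.Agent.RC Pool.Agent.LDK
open Pool.Agent.Lib_helper98.Renyi Pool.Agent.Lib_helper59.RCT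

namespace Pool.Agent.LDS

variable {ι κ b : Type} [Fintype ι] [DecidableEq ι] [Fintype κ] [DecidableEq κ]
  [Fintype b] [DecidableEq b]

theorem fracSt : FracSt := fun hN h0 _ hs0 hs1 => frac hN h0 hs0 hs1

theorem asmSt : AsmSt := fun h => ObtPair.expDom h

theorem obtQ_stab {α : ℝ} (hα : 1 ≤ α) : Stab α ObtQ := obt_stab fracSt hα

theorem obtQ_open {κ : Type} [Fintype κ] [DecidableEq κ] (A D : Matrix κ κ ℂ)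
    (h : IsPsdPair A D) (hq : ObtQ κ (A + D) (A - D)) : Q1Open A D :=
  obt_open asmSt A D h hq

theorem blkQ_stab {α : ℝ} (hα : 1 ≤ α) : Stab α BlkQ := blk_stab fracSt hα

theorem blkQ_open {κ : Type} [Fintype κ] [DecidableEq κ]
    (A D : Matrix κ κ ℂ) (h : IsPsdPair A D) (hq : BlkQ κ (A + D) (A - D)) : Q1Open A D :=
  blk_open pertSt asmSt A D h hq

theorem blk_le {σ₁ : Fin 2 → Matrix ι ι ℂ} {σ₂ : Fin 2 → Matrix κ κ ℂ}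
    (h₁ : ∀ x, IsDensity (σ₁ x)) (h₂ : ∀ x, IsDensity (σ₂ x))
    (hf : FlagQ BlkQ (σ₁ 0) (σ₁ 1) ∨ FlagQ BlkQ (σ₂ 0) (σ₂ 1)) (α : ℝ)
    (hα : (1 ≤ α ∧ α ≤ 2) ∨ (3 ≤ α ∧ α ≤ 4)) : Hsum α σ₁ σ₂ ≤ Fval α σ₁ σ₂ :=
  blk_le_of fracSt asmSt pertSt h₁ h₂ hf α hα

theorem blk_ge {σ₁ : Fin 2 → Matrix ι ι ℂ} {σ₂ : Fin 2 → Matrix κ κ ℂ}
    (h₁ : ∀ x, IsDensity (σ₁ x)) (h₂ : ∀ x, IsDensity (σ₂ x))
    (hf : FlagQ BlkQ (σ₁ 0) (σ₁ 1) ∨ FlagQ BlkQ (σ₂ 0) (σ₂ 1)) (α : ℝ)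
    (h2 : 2 ≤ α) (h3 : α ≤ 3) : Fval α σ₁ σ₂ ≤ Hsum α σ₁ σ₂ :=
  blk_ge_of fracSt asmSt pertSt h₁ h₂ hf α h2 h3

theorem blk_at {σ₁ : Fin 2 → Matrix ι ι ℂ} {σ₂ : Fin 2 → Matrix κ κ ℂ}
    (h₁ : ∀ x, IsDensity (σ₁ x)) (h₂ : ∀ x, IsDensity (σ₂ x)) (α : ℝ)
    (hf : FlagQ BlkQ (Aop α σ₁ + Dop α σ₁) (Aop α σ₁ - Dop α σ₁) ∨
      FlagQ BlkQ (Aop α σ₂ + Dop α σ₂) (Aop α σ₂ - Dop α σ₂))
    (hα : (0 < α ∧ α ≤ 2 ∧ α ≠ 1) ∨ (3 ≤ α ∧ α ≤ 4)) : Hsum α σ₁ σ₂ ≤ Fval α σ₁ σ₂ :=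
  blk_le_at asmSt pertSt h₁ h₂ α hf hα

end Pool.Agent.LDS
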