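import Pool.Agent.Lib_helper64.LDS.Defs

/-!
# LDS, blocks CM and LEAF
-/

set_option autoImplicit false
set_option linter.unusedSectionVars false
set_option linter.unusedSimpArgs false

open scoped ENNReal ComplexOrder Kronecker

namespace Pool.Agent.LDS

open Matrix MeasureTheory Set Filter
open Pool.Agent.Lib_helper98.Renyi Pool.Agent.Lib_helper59.Lieb Pool.Agent.Lib_helper59.RCT

variable {n m κ : Type} [Fintype n] [DecidableEq n] [Fintype m] [DecidableEq m]
  [Fintype κ] [DecidableEq κ]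

theorem nu_sfinite (g a d : ℝ) : SFinite (nu g a d) := by
  unfold nu
  infer_instance

theorem cnv_sfinite (g a d : m → ℝ) (L : List m) : SFinite (cnv g a d L) := by
  induction L with
  | nil => rw [cnv]; infer_instance
  | cons i L ih =>
    have := nu_sfinite (g i) (a i) (d i)
    rw [cnv]
    unfold Measure.conv
    infer_instance

theorem cnv_measurable_dir (a d : ℝ) : Measurable fun s : ℝ => (s * a, s * d) := by fun_prop

theorem cnv_ae_ray {a d : ℝ} (had : |d| ≤ a) (f : ℝ → ℝ≥0∞) :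
    ∀ᵐ p ∂(((volume.restrict (Ioi (0 : ℝ))).withDensity f).map fun s => (s * a, s * d)),
      |p.2| ≤ p.1 := by
  rw [ae_map_iff (cnv_measurable_dir a d).aemeasurable
    (measurableSet_le measurable_snd.abs measurable_fst)]
  have h5 : ∀ᵐ s ∂(volume.restrict (Ioi (0 : ℝ))), |s * d| ≤ s * a := by
    rw [ae_restrict_iff' measurableSet_Ioi]
    refine Eventually.of_forall fun s hs => ?_
    have hs0 : (0 : ℝ) < s := hs
    rw [abs_mul, abs_of_pos hs0]
    exact mul_le_mul_of_nonneg_left had hs0.le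
  exact (withDensity_absolutelyContinuous _ _).ae_le h5

theorem cnv_adm {g a d : m → ℝ} (had : ∀ i, |d i| ≤ a i) (L : List m) :
    ∀ᵐ p ∂cnv g a d L, |p.2| ≤ p.1 := by
  induction L with
  | nil =>
    rw [cnv, ae_dirac_iff (measurableSet_le measurable_snd.abs measurable_fst)]
    simp
  | cons i L ih =>
    have h1 : ∀ᵐ p ∂(nu (g i) (a i) (d i)), |p.2| ≤ p.1 := cnv_ae_ray (had i) _
    have := nu_sfinite (g i) (a i) (d i)
    have := cnv_sfinite g a d L
    have hadd : Measurable fun p : (ℝ × ℝ) × (ℝ × ℝ) => p.1 + p.2 := by fun_prop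
    rw [cnv]
    unfold Measure.conv
    rw [ae_map_iff hadd.aemeasurable (measurableSet_le measurable_snd.abs measurable_fst)]
    have h2 := (Measure.quasiMeasurePreserving_fst (μ := nu (g i) (a i) (d i))
      (ν := cnv g a d L)).ae h1
    have h3 := (Measure.quasiMeasurePreserving_snd (μ := nu (g i) (a i) (d i))
      (ν := cnv g a d L)).ae ih
    filter_upwards [h2, h3] with p hp1 hp2
    simp only [Prod.snd_add, Prod.fst_add]
    exact (abs_add_le _ _).trans (add_le_add hp1 hp2)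

theorem cnv_lintegral_ray (a d : ℝ) {w : ℝ → ℝ≥0∞} (hw : Measurable w) {f : ℝ × ℝ → ℝ≥0∞}
    (hf : Measurable f) :
    ∫⁻ p, f p ∂(((volume.restrict (Ioi (0 : ℝ))).withDensity w).map fun s => (s * a, s * d)) =
      ∫⁻ s in Ioi (0 : ℝ), w s * f (s * a, s * d) := by
  have hfx : Measurable fun s : ℝ => f (s * a, s * d) :=
    Measurable.comp (g := f) (f := fun s : ℝ => (s * a, s * d)) hf (cnv_measurable_dir a d)
  rw [lintegral_map hf (cnv_measurable_dir a d),
    lintegral_withDensity_eq_lintegral_mul _ hw hfx]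
  rfl

theorem cnv_lintegral_nu (g a d : ℝ) {f : ℝ × ℝ → ℝ≥0∞} (hf : Measurable f) :
    ∫⁻ p, f p ∂(nu g a d) = ∫⁻ s in Ioi (0 : ℝ),
      ENNReal.ofReal (Real.exp (-(g * s))) * f (s * a, s * d) :=
  cnv_lintegral_ray a d (by fun_prop) hf

theorem cnv_lintegral_cons (g a d : m → ℝ) (i : m) (L : List m) {f : ℝ × ℝ → ℝ≥0∞}
    (hf : Measurable f) :
    ∫⁻ p, f p ∂(cnv g a d (i :: L)) =
      ∫⁻ x, ∫⁻ y, f (x + y) ∂(cnv g a d L) ∂(nu (g i) (a i) (d i)) := by
  have := nu_sfinite (g i) (a i) (d i)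
  have := cnv_sfinite g a d L
  have hadd : Measurable fun p : (ℝ × ℝ) × (ℝ × ℝ) => p.1 + p.2 := by fun_prop
  rw [cnv]
  unfold Measure.conv
  rw [lintegral_map hf hadd]
  exact lintegral_prod (μ := nu (g i) (a i) (d i)) (ν := cnv g a d L)
    (fun p : (ℝ × ℝ) × (ℝ × ℝ) => f (p.1 + p.2)) (hf.comp hadd).aemeasurable

theorem cnv_exp_Ioi {c : ℝ} (hc : 0 < c) :
    ∫⁻ s in Ioi (0 : ℝ), ENNReal.ofReal (Real.exp (-(s * c))) = ENNReal.ofReal c⁻¹ := by
  have h := lintegral_pow_exp 0 hc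
  simp only [pow_zero, one_mul, zero_add, pow_one, Nat.factorial_zero, Nat.cast_one,
    one_div] at h
  rw [← h]
  refine lintegral_congr fun s => ?_
  rw [mul_comm]

theorem cnv_exp_shift {X : Matrix n n ℂ} (hX : X.IsHermitian) (c : ℝ) :
    rtr (cfc Real.exp (X - c • (1 : Matrix n n ℂ))) = Real.exp (-c) * rtr (cfc Real.exp X) := by
  obtain ⟨U, x, hU, hU', rfl⟩ := exists_spectral hX
  have h1 : (-c) • (1 : Matrix n n ℂ) = U * dg (fun _ => -c) * Uᴴ := by
    rw [dg_const, Matrix.mul_smul, Matrix.mul_one, Matrix.smul_mul, hU']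
  have h2 : U * diagonal (fun i => (x i : ℂ)) * Uᴴ - c • (1 : Matrix n n ℂ) =
      U * dg (fun i => x i + -c) * Uᴴ := by
    rw [sub_eq_add_neg, ← neg_smul, h1, dg, dg, ← Matrix.add_mul, ← Matrix.mul_add, diagonal_add]
    congr 3
    funext i
    push_cast
    rfl
  rw [h2, rtr_cfc_dg hU]
  change _ = Real.exp (-c) * rtr (cfc Real.exp (U * dg x * Uᴴ))
  rw [rtr_cfc_dg hU, Finset.mul_sum]
  refine Finset.sum_congr rfl fun i _ => ?_
  rw [← Real.exp_add]
  congr 1
  ring

/-- `Tr exp (Q - (p.1 A + p.2 D))` -/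
noncomputable def cnvF (Q A D : Matrix n n ℂ) (p : ℝ × ℝ) : ℝ :=
  rtr (cfc Real.exp (Q - (p.1 • A + p.2 • D)))

theorem cnvF_measurable {Q A D : Matrix n n ℂ} (hQ : Q.IsHermitian) (hA : A.IsHermitian)
    (hD : D.IsHermitian) : Measurable fun p => ENNReal.ofReal (cnvF Q A D p) := by
  have h1 : cnvF Q A D = fun p => rtr (NormedSpace.exp (Q - (p.1 • A + p.2 • D))) := by
    funext p
    rw [cnvF, cfc_exp_eq (hQ.sub ((herm_smul hA _).add (herm_smul hD _)))]
  have h2 : Continuous (cnvF Q A D) := by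
    rw [h1]
    refine continuous_rtr_exp.comp ?_
    fun_prop
  exact ENNReal.measurable_ofReal.comp h2.measurable

/-- **One letter.** -/
theorem cnv_nu_le {g a d : ℝ} {A D Q : Matrix n n ℂ} (hA : A.IsHermitian) (hD : D.IsHermitian)
    (hQ : Q.IsHermitian) (hU : (g • (1 : Matrix n n ℂ) + a • A + d • D).PosDef) :
    ∫⁻ p, ENNReal.ofReal (cnvF Q A D p) ∂(nu g a d) ≤
      ENNReal.ofReal (rtr (cfc Real.exp (Q - cfc Real.log
        (g • (1 : Matrix n n ℂ) + a • A + d • D)))) := by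
  rw [cnv_lintegral_nu g a d (cnvF_measurable hQ hA hD)]
  set N := g • (1 : Matrix n n ℂ) + a • A + d • D with hN
  have hspec : ∀ x ∈ spectrum ℝ N, 0 < x := by
    intro x hx
    obtain ⟨i, rfl⟩ := hU.1.spectrum_real_eq_range_eigenvalues ▸ hx
    exact hU.eigenvalues_pos i
  have h1 := lieb_lap (volume.restrict (Ioi (0 : ℝ))) hQ hU.1
    (w := fun _ => 1) (q := fun s => s) measurable_const measurable_id (g := fun x => x⁻¹)
    (fun x hx => inv_pos.2 (hspec x hx))
    (fun x hx => by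
      simp only [one_mul]
      exact cnv_exp_Ioi (hspec x hx))
  refine (le_of_eq ?_).trans (h1.trans (le_of_eq ?_))
  · refine lintegral_congr fun s => ?_
    rw [one_mul, ← ENNReal.ofReal_mul (Real.exp_pos _).le]
    congr 1
    have hX : (Q - ((s * a) • A + (s * d) • D)).IsHermitian :=
      hQ.sub ((herm_smul hA _).add (herm_smul hD _))
    unfold cnvF
    rw [← cnv_exp_shift hX]
    congr 2
    rw [hN]
    module
  · congr 3
    rw [sub_eq_add_neg]
    congr 1
    obtain ⟨V, ν, hV, hV', hNe⟩ := exists_spectral hU.1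
    rw [hNe, cfc_conj_diagonal _ V hV, cfc_conj_diagonal _ V hV, ← Matrix.neg_mul,
      ← Matrix.mul_neg, diagonal_neg]
    congr 3
    funext i
    rw [Real.log_inv]
    push_cast
    rfl

theorem cnv_lg_herm (U : m → Matrix n n ℂ) (L : List m) : (L.map (lg U)).sum.IsHermitian := by
  induction L with
  | nil => simp
  | cons i L ih =>
    rw [List.map_cons, List.sum_cons]
    exact IsHermitian.add IsSelfAdjoint.cfc ih

/-- Lieb's theorem along a word -/
theorem cnv_le {g a d : m → ℝ} {A D Q : Matrix n n ℂ} (hA : A.IsHermitian) (hD : D.IsHermitian)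
    (hQ : Q.IsHermitian) (hU : ∀ i, (let3 g a d A D i).PosDef) (L : List m) :
    ∫⁻ p, ENNReal.ofReal (rtr (cfc Real.exp (Q - (p.1 • A + p.2 • D)))) ∂cnv g a d L ≤
      ENNReal.ofReal (rtr (cfc Real.exp (Q - (L.map (lg (let3 g a d A D))).sum))) := by
  induction L generalizing Q with
  | nil =>
    change ∫⁻ p, ENNReal.ofReal (cnvF Q A D p) ∂cnv g a d [] ≤ _
    rw [cnv, lintegral_dirac' _ (cnvF_measurable hQ hA hD)]
    simp [cnvF]
  | cons i L ih =>
    change ∫⁻ p, ENNReal.ofReal (cnvF Q A D p) ∂cnv g a d (i :: L) ≤ _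
    rw [cnv_lintegral_cons g a d i L (cnvF_measurable hQ hA hD)]
    have hh : ∀ x : ℝ × ℝ, (Q - (x.1 • A + x.2 • D)).IsHermitian := fun x =>
      hQ.sub ((herm_smul hA _).add (herm_smul hD _))
    have hS := cnv_lg_herm (let3 g a d A D) L
    calc ∫⁻ x, ∫⁻ y, ENNReal.ofReal (cnvF Q A D (x + y)) ∂(cnv g a d L) ∂(nu (g i) (a i) (d i))
        ≤ ∫⁻ x, ENNReal.ofReal (cnvF (Q - (L.map (lg (let3 g a d A D))).sum) A D x)
            ∂(nu (g i) (a i) (d i)) := by
          refine lintegral_mono fun x => ?_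
          refine (le_of_eq (lintegral_congr fun y => ?_)).trans ((ih (hh x)).trans (le_of_eq ?_))
          · unfold cnvF
            congr 3
            simp only [Prod.fst_add, Prod.snd_add]
            module
          · unfold cnvF
            congr 3
            module
      _ ≤ ENNReal.ofReal (rtr (cfc Real.exp ((Q - (L.map (lg (let3 g a d A D))).sum) -
            cfc Real.log (g i • (1 : Matrix n n ℂ) + a i • A + d i • D)))) :=
          cnv_nu_le hA hD (hQ.sub hS) (hU i)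
      _ = _ := by
          rw [List.map_cons, List.sum_cons]
          congr 3
          rw [lg, let3]
          abel

theorem cnv_scalar {g a d : m → ℝ} {α δ : ℝ} (hpos : ∀ i, 0 < g i + a i * α + d i * δ)
    (L : List m) : ∫⁻ p, ENNReal.ofReal (Real.exp (-(p.1 * α + p.2 * δ))) ∂(cnv g a d L) =
      ENNReal.ofReal ((L.map fun i => (g i + a i * α + d i * δ)⁻¹).prod) := by
  induction L with
  | nil =>
    rw [cnv, lintegral_dirac' _ (by fun_prop)]
    simp
  | cons i L ih =>
    have hm : Measurable fun p : ℝ × ℝ => ENNReal.ofReal (Real.exp (-(p.1 * α + p.2 * δ))) := by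
      fun_prop
    rw [cnv_lintegral_cons g a d i L hm]
    have e1 : ∀ x y : ℝ × ℝ, ENNReal.ofReal (Real.exp (-((x + y).1 * α + (x + y).2 * δ))) =
        ENNReal.ofReal (Real.exp (-(x.1 * α + x.2 * δ))) *
          ENNReal.ofReal (Real.exp (-(y.1 * α + y.2 * δ))) := by
      intro x y
      rw [← ENNReal.ofReal_mul (Real.exp_pos _).le, ← Real.exp_add]
      congr 2
      simp only [Prod.fst_add, Prod.snd_add]
      ring
    simp_rw [e1]
    have e2 : ∀ x : ℝ × ℝ, ∫⁻ y, ENNReal.ofReal (Real.exp (-(x.1 * α + x.2 * δ))) *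
        ENNReal.ofReal (Real.exp (-(y.1 * α + y.2 * δ))) ∂(cnv g a d L) =
        ENNReal.ofReal (Real.exp (-(x.1 * α + x.2 * δ))) *
          ENNReal.ofReal ((L.map fun i => (g i + a i * α + d i * δ)⁻¹).prod) := by
      intro x
      rw [lintegral_const_mul _ hm, ih]
    simp_rw [e2]
    rw [lintegral_mul_const _ hm, cnv_lintegral_nu _ _ _ hm]
    have e3 : ∫⁻ s in Ioi (0 : ℝ), ENNReal.ofReal (Real.exp (-(g i * s))) *
        ENNReal.ofReal (Real.exp (-(s * a i * α + s * d i * δ))) =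
        ENNReal.ofReal (g i + a i * α + d i * δ)⁻¹ := by
      rw [← cnv_exp_Ioi (hpos i)]
      refine lintegral_congr fun s => ?_
      rw [← ENNReal.ofReal_mul (Real.exp_pos _).le, ← Real.exp_add]
      congr 2
      ring
    rw [e3, ← ENNReal.ofReal_mul (inv_nonneg.2 (hpos i).le), List.map_cons, List.prod_cons]

/-- equality for commuting pairs -/
theorem cnv_eq {g a d : m → ℝ} {V : Matrix n n ℂ} (hV : Vᴴ * V = 1) (_hV' : V * Vᴴ = 1)
    {α δ : n → ℝ} (hpos : ∀ i x, 0 < g i + a i * α x + d i * δ x) (L : List m) :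
    ∫⁻ p, ENNReal.ofReal (rtr (cfc Real.exp (-(p.1 • (V * dg α * Vᴴ) + p.2 • (V * dg δ * Vᴴ)))))
      ∂cnv g a d L =
      ENNReal.ofReal (∑ x, (L.map fun i => (g i + a i * α x + d i * δ x)⁻¹).prod) := by
  have hadd : ∀ c d : n → ℝ, V * dg c * Vᴴ + V * dg d * Vᴴ = V * dg (fun i => c i + d i) * Vᴴ := by
    intro c d
    rw [← Matrix.add_mul, ← Matrix.mul_add, dg, dg, diagonal_add]
    congr 3
    funext i
    push_cast
    rfl
  have e1 : ∀ p : ℝ × ℝ,
      rtr (cfc Real.exp (-(p.1 • (V * dg α * Vᴴ) + p.2 • (V * dg δ * Vᴴ)))) =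
      ∑ i, Real.exp (-(p.1 * α i + p.2 * δ i)) := by
    intro p
    rw [smul_conj_dg, smul_conj_dg, hadd]
    have := neg_smul_conj_dg V 1 (fun i => p.1 * α i + p.2 * δ i)
    rw [one_smul] at this
    simp only [one_mul] at this
    rw [this, rtr_cfc_dg hV]
  have hm : ∀ i, Measurable fun p : ℝ × ℝ =>
      ENNReal.ofReal (Real.exp (-(p.1 * α i + p.2 * δ i))) := fun i => by fun_prop
  have hprod : ∀ x, 0 ≤ (L.map fun i => (g i + a i * α x + d i * δ x)⁻¹).prod := by
    intro x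
    refine List.prod_nonneg fun z hz => ?_
    obtain ⟨i, _, rfl⟩ := List.mem_map.1 hz
    exact inv_nonneg.2 (hpos i x).le
  simp_rw [e1, ENNReal.ofReal_sum_of_nonneg fun i _ => (Real.exp_pos _).le]
  rw [lintegral_finsetSum _ fun i _ => hm i,
    Finset.sum_congr rfl fun x _ => cnv_scalar (fun i => hpos i x) L,
    ENNReal.ofReal_sum_of_nonneg fun x _ => hprod x]

/-! ## LEAF: Frullani for one letter -/

/-- the leaf measure: law of `(s a, s d)` under `s⁻¹ e^{-g s} ds` -/
noncomputable def lf (g a d : ℝ) : Measure (ℝ × ℝ) :=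
  ((volume.restrict (Set.Ioi (0 : ℝ))).withDensity
    fun s => ENNReal.ofReal (s⁻¹ * Real.exp (-(g * s)))).map fun s => (s * a, s * d)

theorem lf_sfinite (g a d : ℝ) : SFinite (lf g a d) := by
  unfold lf
  infer_instance

theorem lf_adm {g a d : ℝ} (had : |d| ≤ a) : ∀ᵐ p ∂lf g a d, |p.2| ≤ p.1 := cnv_ae_ray had _

/-- **One letter, exactly.** -/
theorem lf_eq' {g a d : ℝ} (hg : 0 < g) (had : |d| ≤ a) {A D : Matrix n n ℂ} (h : PP A D) :
    0 ≤ Ld (g • (1 : Matrix n n ℂ) + a • A) -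
        (Ld (g • (1 : Matrix n n ℂ) + a • A + d • D) +
          Ld (g • (1 : Matrix n n ℂ) + a • A - d • D)) / 2 ∧
    ∫⁻ p, ENNReal.ofReal (sd en (p.1 • A) (p.2 • D)) ∂lf g a d =
      ENNReal.ofReal (Ld (g • (1 : Matrix n n ℂ) + a • A) -
        (Ld (g • (1 : Matrix n n ℂ) + a • A + d • D) +
          Ld (g • (1 : Matrix n n ℂ) + a • A - d • D)) / 2) := by
  have ha : 0 ≤ a := (abs_nonneg _).trans had
  have hd := Sheet.PP.dir h had
  have p1 : (g • (1 : Matrix n n ℂ) + a • A + d • D).PosDef := by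
    rw [add_assoc]
    exact (PosDef.one.smul hg).add_posSemidef hd.add
  have p2 : (g • (1 : Matrix n n ℂ) + a • A - d • D).PosDef := by
    rw [add_sub_assoc]
    exact (PosDef.one.smul hg).add_posSemidef hd.sub
  have p0 : (g • (1 : Matrix n n ℂ) + a • A).PosDef :=
    (PosDef.one.smul hg).add_posSemidef (h.psd.smul ha)
  obtain ⟨i1, e1⟩ := fru_comb p1 p2 p0
  have hpt : ∀ s : ℝ, s⁻¹ * (rtr (cfc Real.exp (-(s • (g • (1 : Matrix n n ℂ) + a • A + d • D)))) /
      2 + rtr (cfc Real.exp (-(s • (g • (1 : Matrix n n ℂ) + a • A - d • D)))) / 2 -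
      rtr (cfc Real.exp (-(s • (g • (1 : Matrix n n ℂ) + a • A))))) =
      s⁻¹ * Real.exp (-(g * s)) * sd en ((s * a) • A) ((s * d) • D) := by
    intro s
    have hh : ∀ {X : Matrix n n ℂ}, X.IsHermitian →
        rtr (cfc Real.exp (-(s • (g • (1 : Matrix n n ℂ) + X)))) =
        Real.exp (-(g * s)) * rtr (cfc Real.exp (-(s • X))) := by
      intro X hX
      rw [← cnv_exp_shift (herm_smul hX s).neg]
      congr 2
      module
    have q1 : g • (1 : Matrix n n ℂ) + a • A + d • D = g • (1 : Matrix n n ℂ) + (a • A + d • D) := by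
      abel
    have q2 : g • (1 : Matrix n n ℂ) + a • A - d • D = g • (1 : Matrix n n ℂ) + (a • A - d • D) := by
      abel
    rw [q1, q2, hh hd.add.1, hh hd.sub.1, hh (herm_smul h.psd.1 _),
      sd_en_eq h.psd.1 h.herm (s * a, s * d)]
    unfold E
    simp only
    have a1 : -((s * a) • A + (s * d) • D) = -(s • (a • A + d • D)) := by module
    have a2 : -((s * a) • A + (-(s * d)) • D) = -(s • (a • A - d • D)) := by module
    have a3 : -((s * a) • A + (0 : ℝ) • D) = -(s • (a • A)) := by module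
    rw [a1, a2, a3]
    ring
  simp_rw [hpt] at i1 e1
  have hnn : ∀ s ∈ Ioi (0 : ℝ),
      0 ≤ s⁻¹ * Real.exp (-(g * s)) * sd en ((s * a) • A) ((s * d) • D) := by
    intro s hs
    have hs0 : (0 : ℝ) < s := hs
    have h1 : |s * d| ≤ s * a := by
      rw [abs_mul, abs_of_pos hs0]
      exact mul_le_mul_of_nonneg_left had hs0.le
    have h2 : 0 ≤ sd en ((s * a) • A) ((s * d) • D) :=
      sd_nonneg convexOn_exp_neg (Sheet.PP.dir h h1)
    positivity
  have e2 : Ld (g • (1 : Matrix n n ℂ) + a • A) -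
        (Ld (g • (1 : Matrix n n ℂ) + a • A + d • D) +
          Ld (g • (1 : Matrix n n ℂ) + a • A - d • D)) / 2 =
      ∫ s in Ioi (0 : ℝ), s⁻¹ * Real.exp (-(g * s)) * sd en ((s * a) • A) ((s * d) • D) := by
    rw [e1]
    ring
  rw [e2]
  refine ⟨setIntegral_nonneg measurableSet_Ioi hnn, ?_⟩
  unfold lf
  rw [cnv_lintegral_ray a d (by fun_prop) (measurable_sd_en h.psd.1 h.herm),
    ofReal_integral_eq_lintegral_ofReal i1 ((ae_restrict_iff' measurableSet_Ioi).2
      (Eventually.of_forall hnn))]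
  refine setLIntegral_congr_fun measurableSet_Ioi fun s hs => ?_
  have hs0 : (0 : ℝ) < s := hs
  rw [← ENNReal.ofReal_mul (by positivity)]

theorem lf_eq {g a d : ℝ} (hg : 0 < g) (had : |d| ≤ a) {A D : Matrix n n ℂ} (hAD : PP A D) :
    ∫⁻ p, ENNReal.ofReal (sd en (p.1 • A) (p.2 • D)) ∂lf g a d =
      ENNReal.ofReal (Ld (g • (1 : Matrix n n ℂ) + a • A) -
        (Ld (g • (1 : Matrix n n ℂ) + a • A + d • D) +
          Ld (g • (1 : Matrix n n ℂ) + a • A - d • D)) / 2) := (lf_eq' hg had hAD).2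

end Pool.Agent.LDS
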