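import Pool.Agent.Lib_helper57.LDS.Pos
import Pool.Agent.Lib_helper98.RenyiRed

/-!
# LDS, block FRAC2: the class `ObtPair` is stable under the passage to powers
-/

set_option autoImplicit false
set_option linter.unusedSectionVars false

open Matrix
open scoped ComplexOrder Kronecker MatrixOrder
open Pool.Agent.Lib_helper98.Renyi Pool.Agent.Lib_helper59.Lieb Pool.Agent.Lib_helper59.RCT

namespace Pool.Agent.LDS

variable {n m κ : Type} [Fintype n] [DecidableEq n] [Fintype m] [DecidableEq m]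
  [Fintype κ] [DecidableEq κ]

/-- the statement of block FRAC1 -/
def FracSt : Prop := ∀ {m : Type} [Fintype m] [DecidableEq m] {N : Matrix m m ℝ}, N.PosDef →
  (∀ i j, i ≠ j → N i j ≤ 0) → ∀ {s : ℝ}, 0 < s → s ≤ 1 →
    ∃ N' : Matrix m m ℝ, (∀ i j, i ≠ j → N' i j ≤ 0) ∧
      cm N' = cfc (fun x : ℝ => x ^ s) (cm N)

/-- a polynomial with prescribed values on a finite set -/
theorem exists_poly (f : ℝ → ℝ) (S : Set ℝ) (hS : S.Finite) :
    ∃ p : Polynomial ℝ, ∀ x ∈ S, p.eval x = f x := by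
  classical
  refine ⟨Lagrange.interpolate hS.toFinset id f, fun x hx => ?_⟩
  have h := Lagrange.eval_interpolate_at_node (s := hS.toFinset) (v := id) f
    (Set.injOn_id _) (hS.mem_toFinset.2 hx)
  simpa using h

/-- moving a factor through a polynomial of a product -/
theorem aeval_push (G : Matrix κ m ℂ) (p : Polynomial ℝ) :
    Gᴴ * Polynomial.aeval (G * Gᴴ) p = Polynomial.aeval (Gᴴ * G) p * Gᴴ := by
  induction p using Polynomial.induction_on' with
  | add p q hp hq => rw [map_add, map_add, Matrix.mul_add, Matrix.add_mul, hp, hq]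
  | monomial k c =>
    have h : ∀ k : ℕ, Gᴴ * (G * Gᴴ) ^ k = (Gᴴ * G) ^ k * Gᴴ := by
      intro k
      induction k with
      | zero => rw [pow_zero, pow_zero, Matrix.mul_one, Matrix.one_mul]
      | succ k ih =>
        rw [pow_succ, ← Matrix.mul_assoc, ih, pow_succ, Matrix.mul_assoc, Matrix.mul_assoc,
          Matrix.mul_assoc]
    rw [Polynomial.aeval_monomial, Polynomial.aeval_monomial, Algebra.algebraMap_eq_smul_one,
      Algebra.algebraMap_eq_smul_one, smul_mul_assoc, smul_mul_assoc, one_mul, one_mul,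
      Matrix.mul_smul, Matrix.smul_mul, h]

theorem cfc_push (G : Matrix κ m ℂ) (f : ℝ → ℝ) :
    Gᴴ * cfc f (G * Gᴴ) * G = cfc (fun x => x * f x) (Gᴴ * G) := by
  have hA : (G * Gᴴ).IsHermitian := isHermitian_mul_conjTranspose_self G
  have hB : (Gᴴ * G).IsHermitian := isHermitian_conjTranspose_mul_self G
  obtain ⟨p, hp⟩ := exists_poly f (spectrum ℝ (G * Gᴴ) ∪ spectrum ℝ (Gᴴ * G))
    ((Matrix.finite_real_spectrum).union (Matrix.finite_real_spectrum))
  have h1 : cfc f (G * Gᴴ) = Polynomial.aeval (G * Gᴴ) p := by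
    rw [← cfc_polynomial p (G * Gᴴ) hA.isSelfAdjoint]
    exact cfc_congr fun x hx => (hp x (Or.inl hx)).symm
  have h2 : cfc (fun x => x * f x) (Gᴴ * G) = Polynomial.aeval (Gᴴ * G) (p * Polynomial.X) := by
    rw [← cfc_polynomial (p * Polynomial.X) (Gᴴ * G) hB.isSelfAdjoint]
    refine cfc_congr fun x hx => ?_
    show x * f x = (p * Polynomial.X).eval x
    rw [Polynomial.eval_mul, Polynomial.eval_X, hp x (Or.inr hx), mul_comm]
  rw [h1, h2, map_mul, Polynomial.aeval_X, aeval_push, Matrix.mul_assoc]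

/-- powers of inverse matrices are inverse -/
theorem cfc_pow_inv {T N : Matrix m m ℂ} (hT : T.PosDef) (hTN : T * N = 1) (s : ℝ) :
    cfc (fun x : ℝ => x ^ s) T * cfc (fun x : ℝ => x ^ s) N = 1 := by
  obtain ⟨U, t, hU, hU', ht, hTe⟩ := exists_spectral_pos hT
  have hN : N = U * dg (fun i => (t i)⁻¹) * Uᴴ := by
    have h1 : (U * dg (fun i => (t i)⁻¹) * Uᴴ) * T = 1 := by
      rw [hTe]
      calc U * dg (fun i => (t i)⁻¹) * Uᴴ * (U * dg t * Uᴴ)
          = U * (dg (fun i => (t i)⁻¹) * (Uᴴ * U) * dg t) * Uᴴ := by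
            simp only [Matrix.mul_assoc]
        _ = 1 := by
            rw [hU, Matrix.mul_one, dg, dg, diagonal_mul_diagonal]
            have : (fun i => (((t i)⁻¹ : ℝ) : ℂ) * ((t i : ℝ) : ℂ)) = fun _ => (1 : ℂ) := by
              funext i
              rw [← Complex.ofReal_mul, inv_mul_cancel₀ (ht i).ne', Complex.ofReal_one]
            rw [this, diagonal_one, Matrix.mul_one, hU']
    calc N = (U * dg (fun i => (t i)⁻¹) * Uᴴ) * T * N := by rw [h1, Matrix.one_mul]
      _ = U * dg (fun i => (t i)⁻¹) * Uᴴ := by rw [Matrix.mul_assoc, hTN, Matrix.mul_one]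
  rw [hN, hTe, dg, dg, cfc_conj_diagonal _ U hU, cfc_conj_diagonal _ U hU]
  calc (U * diagonal (fun i => ((t i ^ s : ℝ) : ℂ)) * Uᴴ) *
        (U * diagonal (fun i => (((t i)⁻¹ ^ s : ℝ) : ℂ)) * Uᴴ)
      = U * (diagonal (fun i => ((t i ^ s : ℝ) : ℂ)) * (Uᴴ * U) *
          diagonal (fun i => (((t i)⁻¹ ^ s : ℝ) : ℂ))) * Uᴴ := by simp only [Matrix.mul_assoc]
    _ = 1 := by
        rw [hU, Matrix.mul_one, diagonal_mul_diagonal]
        have : (fun i => ((t i ^ s : ℝ) : ℂ) * (((t i)⁻¹ ^ s : ℝ) : ℂ)) = fun _ => (1 : ℂ) := by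
          funext i
          rw [← Complex.ofReal_mul, ← Real.mul_rpow (ht i).le (inv_nonneg.2 (ht i).le),
            mul_inv_cancel₀ (ht i).ne', Real.one_rpow, Complex.ofReal_one]
        rw [this, diagonal_one, Matrix.mul_one, hU']

theorem dg_mul_dg (a b : m → ℝ) : dg a * dg b = dg (fun i => a i * b i) := by
  rw [dg, dg, diagonal_mul_diagonal]
  congr 1
  funext i
  rw [← Complex.ofReal_mul]

theorem dg_herm (a : m → ℝ) : (dg a)ᴴ = dg a := by
  rw [dg, diagonal_conjTranspose]
  congr 1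
  funext i
  simp

/-- a real matrix whose complexification is positive definite -/
theorem posDef_of_cm {N : Matrix m m ℝ} (h : (cm N).PosDef) : N.PosDef := by
  have hH : N.IsHermitian := by
    ext i j
    have h1 := congrFun (congrFun h.isHermitian i) j
    rw [conjTranspose_apply, cm, Matrix.map_apply, Matrix.map_apply] at h1
    have h2 := congrArg Complex.re h1
    simpa using h2
  refine Matrix.PosDef.of_dotProduct_mulVec_pos hH fun x hx => ?_
  have h1 := h.dotProduct_mulVec_pos (x := fun i => ((x i : ℝ) : ℂ)) (by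
    intro h0
    apply hx
    funext i
    have := congrFun h0 i
    simpa using this)
  have h2 : star (fun i => ((x i : ℝ) : ℂ)) ⬝ᵥ (cm N *ᵥ fun i => ((x i : ℝ) : ℂ)) =
      ((star x ⬝ᵥ (N *ᵥ x) : ℝ) : ℂ) := by
    simp only [dotProduct, mulVec, cm, Matrix.map_apply, Pi.star_apply, Complex.ofReal_sum,
      Complex.ofReal_mul]
    simp
  rw [h2, Complex.zero_lt_real] at h1
  exact h1

theorem ObtPair.pow_of (hfr : FracSt) {S R : Matrix κ κ ℂ} (h : ObtPair S R) {s : ℝ}
    (hs0 : 0 < s) (hs1 : s ≤ 1) :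
    ObtPair (mpow ((1 / 2 : ℂ) • (S + R)) ((s - 1) / 2) * S *
        mpow ((1 / 2 : ℂ) • (S + R)) ((s - 1) / 2))
      (mpow ((1 / 2 : ℂ) • (S + R)) ((s - 1) / 2) * R *
        mpow ((1 / 2 : ℂ) • (S + R)) ((s - 1) / 2)) := by
  obtain ⟨m, _, _, F, g, p, q, K, hF, hp, hq, hpq, rfl, rfl⟩ := h
  set a : m → ℝ := fun i => (p i + q i) / 2 with ha
  have ha0 : ∀ i, 0 < a i := fun i => by
    have := hpq i
    simp only [ha]
    linarith
  set b : m → ℝ := fun i => Real.sqrt (a i) with hb
  have hb0 : ∀ i, 0 < b i := fun i => Real.sqrt_pos.2 (ha0 i)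
  have hbb : ∀ i, b i * b i = a i := fun i => Real.mul_self_sqrt (ha0 i).le
  set bi : m → ℝ := fun i => (b i)⁻¹ with hbi
  have hbbi : dg b * dg bi = 1 := by
    rw [dg_mul_dg]
    have : (fun i => b i * bi i) = fun _ => (1 : ℝ) := by
      funext i
      simp only [hbi]
      rw [mul_inv_cancel₀ (hb0 i).ne']
    rw [this, dg_one]
  have hbib : dg bi * dg b = 1 := by
    rw [dg_mul_dg]
    have : (fun i => bi i * b i) = fun _ => (1 : ℝ) := by
      funext i
      simp only [hbi]
      rw [inv_mul_cancel₀ (hb0 i).ne']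
    rw [this, dg_one]
  set G : Matrix κ m ℂ := F * dg b with hG
  have hGH : Gᴴ = dg b * Fᴴ := by rw [hG, conjTranspose_mul, dg_herm]
  have hρ : (1 / 2 : ℂ) • (F * dg p * Fᴴ + F * dg q * Fᴴ) = G * Gᴴ := by
    have e1 : G * Gᴴ = F * (dg b * dg b) * Fᴴ := by
      rw [hGH, hG]
      simp only [Matrix.mul_assoc]
    rw [e1, dg_mul_dg, ← Matrix.add_mul, ← Matrix.mul_add, ← Matrix.smul_mul, ← Matrix.mul_smul]
    congr 2
    rw [dg, dg, dg, diagonal_add, ← diagonal_smul]
    congr 1
    funext i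
    rw [hbb]
    simp only [Pi.smul_apply, smul_eq_mul, ha]
    push_cast
    ring
  have hFG : F = G * dg bi := by rw [hG, Matrix.mul_assoc, hbbi, Matrix.mul_one]
  rw [hρ]
  set X := mpow (G * Gᴴ) ((s - 1) / 2) with hX
  have hρp : (G * Gᴴ).PosSemidef := posSemidef_self_mul_conjTranspose G
  have hXH : Xᴴ = X := mpow_isHermitian hρp _
  -- the Gram matrix
  set T := Gᴴ * G with hT
  have hTN : T * (dg bi * (dg g - cm K) * dg bi) = 1 := by
    have h1 : T = dg b * (Fᴴ * F) * dg b := by
      rw [hT, hGH, hG]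
      simp only [Matrix.mul_assoc]
    calc T * (dg bi * (dg g - cm K) * dg bi)
        = dg b * ((Fᴴ * F) * (dg b * dg bi) * (dg g - cm K)) * dg bi := by
          rw [h1]
          simp only [Matrix.mul_assoc]
      _ = 1 := by rw [hbbi, Matrix.mul_one, hF.inv, Matrix.mul_one, hbbi]
  have hTp : T.PosDef := by
    have h1 : T.PosSemidef := posSemidef_conjTranspose_mul_self G
    refine h1.posDef_iff_isUnit.2 ?_
    rw [Matrix.isUnit_iff_isUnit_det]
    have h2 := congrArg Matrix.det hTN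
    rw [det_mul, det_one] at h2
    exact IsUnit.of_mul_eq_one _ h2
  -- the real matrix
  set N : Matrix m m ℝ := Matrix.of fun i j => bi i * (diagonal g i j - K i j) * bi j with hN
  have hcN : cm N = dg bi * (dg g - cm K) * dg bi := by
    ext i j
    rw [dg, mul_diagonal, diagonal_mul, cm, Matrix.map_apply, hN, Matrix.of_apply,
      Matrix.sub_apply, cm, Matrix.map_apply]
    by_cases hij : i = j
    · subst hij
      simp
    · rw [diagonal_apply_ne _ hij, dg, diagonal_apply_ne _ hij]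
      push_cast
      ring
  have hNp : (cm N).PosDef := by
    rw [hcN]
    have h1 := hTp.inv
    rwa [Matrix.inv_eq_right_inv hTN] at h1
  obtain ⟨N', hN0, hN'⟩ := hfr (posDef_of_cm hNp) (fun i j hij => by
    rw [hN, Matrix.of_apply, diagonal_apply_ne _ hij, zero_sub]
    have h1 : 0 < bi i := inv_pos.2 (hb0 i)
    have h2 : 0 < bi j := inv_pos.2 (hb0 j)
    have h3 := hF.nonneg i j
    have h4 := mul_nonneg (mul_nonneg h1.le h3) h2.le
    linarith) hs0 hs1
  -- the new Gram matrix
  have hgram : (X * F)ᴴ * (X * F) = dg bi * cfc (fun x : ℝ => x ^ s) T * dg bi := by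
    have h1 : (X * F)ᴴ * (X * F) = dg bi * (Gᴴ * (X * X) * G) * dg bi := by
      rw [conjTranspose_mul, hXH]
      conv_lhs => rw [hFG, conjTranspose_mul, dg_herm]
      simp only [Matrix.mul_assoc]
    have h2 : X * X = cfc (fun x : ℝ => supPow ((s - 1) / 2) x * supPow ((s - 1) / 2) x)
        (G * Gᴴ) := by
      rw [hX, mpow]
      rw [cfc_mul (supPow ((s - 1) / 2)) (supPow ((s - 1) / 2)) (G * Gᴴ)
        (Matrix.finite_real_spectrum.continuousOn _) (Matrix.finite_real_spectrum.continuousOn _)]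
    rw [h1, h2, cfc_push]
    congr 2
    refine cfc_congr fun x hx => ?_
    have hx0 : 0 < x := by
      obtain ⟨U, t, hU, hU', ht, hTe⟩ := exists_spectral_pos hTp
      have h3 := hTp.isStrictlyPositive.spectrum_pos hx
      exact h3
    simp only [supPow, hx0.ne', if_false]
    rw [← Real.rpow_add hx0]
    conv_lhs => rw [← Real.rpow_one x, ← Real.rpow_mul hx0.le, one_mul, ← Real.rpow_add hx0]
    congr 1
    ring
  set g' : m → ℝ := fun i => b i * N' i i * b i with hg'
  set K' : Matrix m m ℝ := Matrix.of fun i j => if i = j then 0 else -(b i * N' i j * b j)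
    with hK'
  have hgK : dg g' - cm K' = dg b * cm N' * dg b := by
    ext i j
    rw [dg, mul_diagonal, diagonal_mul, Matrix.sub_apply, cm, Matrix.map_apply, hK',
      Matrix.of_apply, cm, Matrix.map_apply]
    by_cases hij : i = j
    · subst hij
      rw [diagonal_apply_eq, if_pos rfl, hg']
      push_cast
      ring
    · rw [diagonal_apply_ne _ hij, if_neg hij]
      push_cast
      ring
  refine ⟨m, inferInstance, inferInstance, X * F, g', p, q, K', ⟨?_, ?_⟩, hp, hq, hpq, ?_, ?_⟩
  · rw [hgram, hgK, hN', hcN]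
    calc dg bi * cfc (fun x : ℝ => x ^ s) T * dg bi *
          (dg b * cfc (fun x : ℝ => x ^ s) (dg bi * (dg g - cm K) * dg bi) * dg b)
        = dg bi * (cfc (fun x : ℝ => x ^ s) T * (dg bi * dg b) *
            cfc (fun x : ℝ => x ^ s) (dg bi * (dg g - cm K) * dg bi)) * dg b := by
          simp only [Matrix.mul_assoc]
      _ = 1 := by rw [hbib, Matrix.mul_one, cfc_pow_inv hTp hTN, Matrix.mul_one, hbib]
  · intro i j
    rw [hK', Matrix.of_apply]
    by_cases hij : i = j
    · rw [if_pos hij]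
    · rw [if_neg hij]
      have h4 : 0 ≤ b i * -(N' i j) * b j := mul_nonneg
        (mul_nonneg (hb0 i).le (by have := hN0 i j hij; linarith)) (hb0 j).le
      linarith
  · rw [conjTranspose_mul, hXH]
    simp only [Matrix.mul_assoc]
  · rw [conjTranspose_mul, hXH]
    simp only [Matrix.mul_assoc]

end Pool.Agent.LDS
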